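import Pool.Agent.H1.Rel.Main

/-!
# Relation counts over bases of finite soluble groups

For a basis `M` of `G` (a generating family with `d(G)` members) let `r_M(G)` be the least number of
defining relations of `G` on the generators `M`, and let `r(G)` be the minimum over all bases. Always
`r_M(G) ≤ d(G) + r(G)`, and Q1 asks whether equality is possible for nontrivial finitely presented
groups. We prove that it is impossible for finite soluble groups, in a strong form: for every
nontrivial finite soluble group `G` and every basis `M` of `G`,

* `r(G)` is finite,
* `r_M(G) ≤ r(G) + 1`, whatever `d(G)` is,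
* `r_M(G) ≤ d(G) + r(G) - 1`.

Proof. By a theorem of Dunwoody, which is proved here, in a finite soluble group generated by
`g_1, …, g_d` each generating tuple `h_0, …, h_d` is Nielsen equivalent to `g_1, …, g_d, 1`. So if `X` is
an optimal basis then `(X, 1)` and `(M, 1)` differ by an automorphism of the free group of rank
`d + 1`. It carries the `r(G) + 1` relations on `(X, 1)` to relations on `(M, 1)`, and killing the last
generator gives `r(G) + 1` relations on `M`. For `d(G) = 1` the kernel does not depend on the basis.
-/

open RelNum

namespace Pool.Agent.Results.MP_e4938c_al.FiniteSolubleGroups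

theorem result (G : Type*) [Group G] [Finite G] [Nontrivial G] (hG : Group.IsSolvable G)
    (M : Fin (Group.rank G) → G) (hM : IsBasis G M) :
    relMin G ≠ ⊤ ∧ relNum M ≤ relMin G + 1 ∧ relNum M + 1 ≤ Group.rank G + relMin G :=
  main G hG M hM

end Pool.Agent.Results.MP_e4938c_al.FiniteSolubleGroups
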