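import Pool.Agent.H80.U1

/-!
# Relation counts of two generating tuples sharing primitive elements

Problem MP_e4938c_al (Q1).  `relNum M` is the least number of defining relations of `G` on the
generating tuple `M` (`⊤` when no finite set of relations suffices).
-/

namespace Pool.Agent.Results.MP_e4938c_al.SharedPrimitives

universe u

/-- The least number of elements of the free group on `x_1, …, x_d` whose normal closure is the
kernel of `x_i ↦ M i`; `⊤` if there is no such finite set. -/
noncomputable def relNum {G : Type u} [Group G] {d : ℕ} (M : Fin d → G) : ℕ∞ :=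
  sInf {n : ℕ∞ | ∃ R : Finset (FreeGroup (Fin d)),
    Subgroup.normalClosure (R : Set (FreeGroup (Fin d))) = (FreeGroup.lift M).ker ∧
      n = (R.card : ℕ∞)}

/-- **Result.** Let `M` and `N` be two `d`-tuples in a group `G`, `N` generating, and let
`v j` be a word expressing `N j` in the entries of `M`. Let `R` be a finite set of defining
relations of `G` on `N` of least cardinality. Suppose that `k` members of some basis of the free
group on `x_1, …, x_d` (the images of the `x_i`, `i ∈ I`, under an automorphism `α`) lie in the
subgroup generated by the words `v j` modulo the normal closure of the relations `R` rewritten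
in terms of the words `v j`. Then `r_M + k ≤ r_N + d`. -/
theorem result {G : Type u} [Group G] {d : ℕ} (M N : Fin d → G)
    (hN : Subgroup.closure (Set.range N) = ⊤)
    (v : Fin d → FreeGroup (Fin d)) (hv : ∀ j, FreeGroup.lift M (v j) = N j)
    (R : Finset (FreeGroup (Fin d)))
    (hR : Subgroup.normalClosure (R : Set (FreeGroup (Fin d))) = (FreeGroup.lift N).ker)
    (hRmin : (R.card : ℕ∞) = relNum N)
    (α : FreeGroup (Fin d) ≃* FreeGroup (Fin d)) (I : Finset (Fin d))
    (hI : ∀ i ∈ I, ∃ f : FreeGroup (Fin d), (α (FreeGroup.of i))⁻¹ * FreeGroup.lift v f ∈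
      Subgroup.normalClosure (FreeGroup.lift v '' (R : Set (FreeGroup (Fin d))))) :
    relNum M + (I.card : ℕ∞) ≤ relNum N + (d : ℕ∞) := by
  obtain ⟨R', hcard, hR'⟩ := Pool.Agent.H80.U1.main M N hN R hR v hv α I hI
  have h1 : relNum M ≤ (R'.card : ℕ∞) := sInf_le ⟨R', hR', rfl⟩
  have hId : I.card ≤ d := by
    have := Finset.card_le_univ I
    rwa [Fintype.card_fin] at this
  have h2 : R'.card + I.card ≤ R.card + d := by omega
  rw [← hRmin]
  calc relNum M + (I.card : ℕ∞) ≤ (R'.card : ℕ∞) + (I.card : ℕ∞) := by gcongr
    _ = ((R'.card + I.card : ℕ) : ℕ∞) := by push_cast; rfl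
    _ ≤ ((R.card + d : ℕ) : ℕ∞) := by exact_mod_cast h2
    _ = (R.card : ℕ∞) + (d : ℕ∞) := by push_cast; rfl

end Pool.Agent.Results.MP_e4938c_al.SharedPrimitives
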